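import Mathlib

/-!
# Balancing unit vectors that lie on at most `d + 2` lines

Let `n` and `d` have opposite parity and let `v_1, …, v_n` be unit vectors in `ℝ^d` which lie on at
most `d + 2` lines through the origin. Then some signing has norm at most `√(d - 1)`.

Proof. Two vectors on one line can be cancelled, so we are left with `m ≤ d + 2` unit vectors on
different lines, `m ≡ n` modulo `2`, so `m ≤ d - 1` or `m = d + 1`. In the first case a random
signing has expected square norm `m ≤ d - 1`. In the second case there is a linear dependency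
`∑ y_i u_i = 0` and we choose the signing `ε` with probability proportional to `(∑ y_i ε_i)²` (the
square of the volume of the simplex with the vertices `ε_i u_i`). The expected square norm is
exactly `m - 2 = d - 1`.
-/

set_option autoImplicit false

namespace Pool.Agent.Results.MP_1be6c9_co.FewLines

open Finset

set_option linter.unusedSectionVars false

/-- the sign of a Boolean -/
def sg (b : Bool) : ℝ := if b then 1 else -1

theorem sg_sq (b : Bool) : sg b * sg b = 1 := by cases b <;> simp [sg]

theorem sg_not (b : Bool) : sg (!b) = - sg b := by cases b <;> simp [sg]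

theorem sg_or (b : Bool) : sg b = 1 ∨ sg b = -1 := by cases b <;> simp [sg]

section moments

variable {J : Type} [Fintype J] [DecidableEq J]

/-- flip one sign -/
def flip (a : J) (τ : J → Bool) : J → Bool := Function.update τ a (!τ a)

theorem flip_flip (a : J) : Function.Involutive (flip a) := by
  intro τ
  funext b
  by_cases h : b = a
  · subst h; simp [flip]
  · simp [flip, h]

theorem flip_same (a : J) (τ : J → Bool) : sg (flip a τ a) = - sg (τ a) := by
  simp [flip, sg_not]

theorem flip_ne {a b : J} (h : b ≠ a) (τ : J → Bool) : sg (flip a τ b) = sg (τ b) := by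
  simp [flip, h]

theorem sum_zero (a : J) (f : (J → Bool) → ℝ) (hf : ∀ τ, f (flip a τ) = - f τ) :
    ∑ τ, f τ = 0 := by
  have h := (flip_flip a).bijective.sum_comp f
  simp only [hf, sum_neg_distrib] at h
  linarith

theorem two (a b : J) : ∑ τ : J → Bool, sg (τ a) * sg (τ b) =
    if a = b then (Fintype.card (J → Bool) : ℝ) else 0 := by
  split_ifs with h
  · subst h; simp [sg_sq]
  · refine sum_zero a _ fun τ => ?_
    rw [flip_same, flip_ne (Ne.symm h)]
    ring

theorem four (a b c d : J) : ∑ τ : J → Bool, sg (τ a) * sg (τ b) * (sg (τ c) * sg (τ d)) =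
    (Fintype.card (J → Bool) : ℝ) * ((if a = b then 1 else 0) * (if c = d then 1 else 0)
      + (if a = c then 1 else 0) * (if b = d then 1 else 0)
      + (if a = d then 1 else 0) * (if b = c then 1 else 0)
      - 2 * ((if a = b then 1 else 0) * (if a = c then 1 else 0) * (if a = d then 1 else 0))) := by
  by_cases hab : a = b
  · subst hab
    simp only [sg_sq, one_mul, two]
    by_cases hcd : c = d
    · subst hcd
      by_cases hac : a = c
      · subst hac; simp; ring
      · simp [hac]
    · simp only [hcd, if_false, if_true]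
      by_cases hac : a = c
      · subst hac; simp [hcd]
      · simp [hac]
  · by_cases hac : a = c
    · subst hac
      have : ∀ τ : J → Bool, sg (τ a) * sg (τ b) * (sg (τ a) * sg (τ d)) =
          sg (τ b) * sg (τ d) := by
        intro τ
        calc sg (τ a) * sg (τ b) * (sg (τ a) * sg (τ d)) =
            (sg (τ a) * sg (τ a)) * (sg (τ b) * sg (τ d)) := by ring
          _ = _ := by rw [sg_sq, one_mul]
      simp only [this, two]
      have hba : ¬ b = a := fun h => hab h.symm
      by_cases hbd : b = d
      · subst hbd; simp [hab]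
      · simp [hab, hbd, hba]
    · by_cases had : a = d
      · subst had
        have : ∀ τ : J → Bool, sg (τ a) * sg (τ b) * (sg (τ c) * sg (τ a)) =
            sg (τ b) * sg (τ c) := by
          intro τ
          calc sg (τ a) * sg (τ b) * (sg (τ c) * sg (τ a)) =
              (sg (τ a) * sg (τ a)) * (sg (τ b) * sg (τ c)) := by ring
            _ = _ := by rw [sg_sq, one_mul]
        simp only [this, two]
        by_cases hbc : b = c
        · subst hbc; simp [hab]
        · simp [hab, hac, hbc]
      · rw [sum_zero a]
        · simp [hab, hac, had]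
        · intro τ
          rw [flip_same, flip_ne (Ne.symm hab), flip_ne (Ne.symm hac), flip_ne (Ne.symm had)]
          ring

end moments

section core

variable {J : Type} [Fintype J] [DecidableEq J]
variable {E : Type} [NormedAddCommGroup E] [InnerProductSpace ℝ E]

theorem norm_sq_sum (w : J → E) (τ : J → Bool) : ‖∑ j, sg (τ j) • w j‖ ^ 2 =
    ∑ c, ∑ d, inner ℝ (w c) (w d) * (sg (τ c) * sg (τ d)) := by
  rw [← real_inner_self_eq_norm_sq, sum_inner]
  refine sum_congr rfl fun c _ => ?_
  rw [inner_sum]
  refine sum_congr rfl fun d _ => ?_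
  rw [real_inner_smul_left, real_inner_smul_right]
  ring

theorem avg (w : J → E) (hw : ∀ j, ‖w j‖ = 1) :
    ∃ τ : J → Bool, ‖∑ j, sg (τ j) • w j‖ ^ 2 ≤ (Fintype.card J : ℝ) := by
  by_contra hcon
  push Not at hcon
  have h1 : ∑ τ : J → Bool, (Fintype.card J : ℝ) < ∑ τ : J → Bool, ‖∑ j, sg (τ j) • w j‖ ^ 2 :=
    sum_lt_sum_of_nonempty univ_nonempty fun τ _ => hcon τ
  have h2 : ∑ τ : J → Bool, ‖∑ j, sg (τ j) • w j‖ ^ 2 =
      (Fintype.card (J → Bool) : ℝ) * (Fintype.card J : ℝ) := by
    simp only [norm_sq_sum]
    rw [sum_comm]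
    have : ∀ c : J, ∑ τ : J → Bool, ∑ d, inner ℝ (w c) (w d) * (sg (τ c) * sg (τ d)) =
        (Fintype.card (J → Bool) : ℝ) := by
      intro c
      rw [sum_comm]
      simp only [← mul_sum, two]
      simp [hw]
    simp only [this]
    simp [mul_comm]
  rw [h2, sum_const, nsmul_eq_mul, card_univ] at h1
  exact lt_irrefl _ h1

theorem core (w : J → E) (hw : ∀ j, ‖w j‖ = 1) (y : J → ℝ) (hy : ∑ j, y j • w j = 0)
    (j0 : J) (hj0 : y j0 ≠ 0) :
    ∃ τ : J → Bool, ‖∑ j, sg (τ j) • w j‖ ^ 2 ≤ (Fintype.card J : ℝ) - 2 := by
  by_contra hcon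
  push Not at hcon
  have hS : ∀ τ : J → Bool, (∑ a, y a * sg (τ a)) ^ 2 =
      ∑ a, ∑ b, y a * y b * (sg (τ a) * sg (τ b)) := by
    intro τ
    rw [sq, sum_mul_sum]
    exact sum_congr rfl fun a _ => sum_congr rfl fun b _ => by ring
  set C : ℝ := (Fintype.card (J → Bool) : ℝ) with hC
  have hCpos : 0 < C := by
    rw [hC]
    exact_mod_cast Fintype.card_pos
  set Y : ℝ := ∑ a, y a * y a with hY
  have hYpos : 0 < Y := by
    rw [hY]
    refine sum_pos' (fun a _ => mul_self_nonneg _) ⟨j0, mem_univ _, ?_⟩
    exact mul_self_pos.2 hj0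
  -- total weight
  have h1 : ∑ τ : J → Bool, (∑ a, y a * sg (τ a)) ^ 2 = C * Y := by
    simp only [hS]
    rw [sum_comm]
    have : ∀ a : J, ∑ τ : J → Bool, ∑ b, y a * y b * (sg (τ a) * sg (τ b)) = C * (y a * y a) := by
      intro a
      rw [sum_comm]
      simp only [← mul_sum, two]
      simp [hC, mul_comm]
    simp only [this]
    rw [← mul_sum]
  -- the dependency
  have hG : ∑ a, ∑ b, y a * y b * inner ℝ (w a) (w b) = 0 := by
    have : inner ℝ (∑ j, y j • w j) (∑ j, y j • w j) = (0 : ℝ) := by rw [hy]; simp
    rw [sum_inner] at this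
    rw [← this]
    refine sum_congr rfl fun a _ => ?_
    rw [inner_sum]
    refine sum_congr rfl fun b _ => ?_
    rw [real_inner_smul_left, real_inner_smul_right]
    ring
  -- the weighted sum
  have h2 : ∑ τ : J → Bool, (∑ a, y a * sg (τ a)) ^ 2 * ‖∑ j, sg (τ j) • w j‖ ^ 2 =
      C * Y * ((Fintype.card J : ℝ) - 2) := by
    have e1 : ∀ τ : J → Bool, (∑ a, y a * sg (τ a)) ^ 2 * ‖∑ j, sg (τ j) • w j‖ ^ 2 =
        ∑ a, ∑ b, ∑ c, ∑ d, y a * y b * inner ℝ (w c) (w d) *
          (sg (τ a) * sg (τ b) * (sg (τ c) * sg (τ d))) := by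
      intro τ
      rw [hS, norm_sq_sum, sum_mul]
      refine sum_congr rfl fun a _ => ?_
      rw [sum_mul]
      refine sum_congr rfl fun b _ => ?_
      rw [mul_sum]
      refine sum_congr rfl fun c _ => ?_
      rw [mul_sum]
      refine sum_congr rfl fun d _ => ?_
      ring
    simp only [e1]
    rw [sum_comm]
    have e2 : ∀ a : J, ∑ τ : J → Bool, ∑ b, ∑ c, ∑ d, y a * y b * inner ℝ (w c) (w d) *
          (sg (τ a) * sg (τ b) * (sg (τ c) * sg (τ d))) =
        C * (y a * y a * (Fintype.card J : ℝ) + 2 * ∑ b, y a * y b * inner ℝ (w a) (w b)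
          - 2 * (y a * y a)) := by
      intro a
      rw [sum_comm]
      have e3 : ∀ b : J, ∑ τ : J → Bool, ∑ c, ∑ d, y a * y b * inner ℝ (w c) (w d) *
          (sg (τ a) * sg (τ b) * (sg (τ c) * sg (τ d))) =
          C * ((if a = b then y a * y b * (Fintype.card J : ℝ) else 0)
            + 2 * (y a * y b * inner ℝ (w a) (w b))
            - 2 * (if a = b then y a * y b else 0)) := by
        intro b
        rw [sum_comm]
        have e4 : ∀ c : J, ∑ τ : J → Bool, ∑ d, y a * y b * inner ℝ (w c) (w d) *
            (sg (τ a) * sg (τ b) * (sg (τ c) * sg (τ d))) =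
            C * (y a * y b) * ((if a = b then 1 else 0)
              + (if a = c then inner ℝ (w a) (w b) else 0)
              + (if b = c then inner ℝ (w a) (w b) else 0)
              - 2 * (if a = b then (if a = c then 1 else 0) else 0)) := by
          intro c
          rw [sum_comm]
          simp only [← mul_sum, four]
          have e5 : ∀ d : J, y a * y b * inner ℝ (w c) (w d) *
              (C * ((if a = b then 1 else 0) * (if c = d then 1 else 0)
              + (if a = c then 1 else 0) * (if b = d then 1 else 0)
              + (if a = d then 1 else 0) * (if b = c then 1 else 0)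
              - 2 * ((if a = b then 1 else 0) * (if a = c then 1 else 0) *
                (if a = d then 1 else 0)))) =
              C * (y a * y b) * ((if c = d then (if a = b then inner ℝ (w c) (w d) else 0) else 0)
              + (if b = d then (if a = c then inner ℝ (w c) (w d) else 0) else 0)
              + (if a = d then (if b = c then inner ℝ (w c) (w d) else 0) else 0)
              - 2 * (if a = d then (if a = b then (if a = c then inner ℝ (w c) (w d) else 0)
                else 0) else 0)) := by
            intro d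
            split_ifs <;> ring
          simp only [hC] at e5
          simp only [e5]
          rw [← mul_sum, sum_sub_distrib, sum_add_distrib, sum_add_distrib, ← mul_sum]
          simp only [sum_ite_eq, mem_univ, if_true]
          have hcc : inner ℝ (w c) (w c) = (1 : ℝ) := by
            rw [real_inner_self_eq_norm_sq, hw]; norm_num
          rw [hcc]
          congr 1
          by_cases h1 : a = b
          · subst h1
            by_cases h3 : a = c
            · subst h3; simp [hw]
            · simp [h3]
          · by_cases h3 : a = c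
            · subst h3
              have h6 : ¬ b = a := fun h => h1 h.symm
              simp [h1, h6]
            · by_cases h6 : b = c
              · subst h6; simp [h1, real_inner_comm]
              · simp [h1, h3, h6]
        simp only [e4]
        rw [← mul_sum, sum_sub_distrib, sum_add_distrib, sum_add_distrib, ← mul_sum]
        simp only [sum_ite_eq, mem_univ, if_true, sum_const, card_univ, nsmul_eq_mul]
        by_cases h1 : a = b
        · subst h1
          simp
          ring
        · simp [h1]
          ring
      simp only [e3]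
      rw [← mul_sum, sum_sub_distrib, sum_add_distrib, ← mul_sum, ← mul_sum]
      simp only [sum_ite_eq, mem_univ, if_true]
    simp only [e2]
    rw [← mul_sum, sum_sub_distrib, sum_add_distrib, ← mul_sum, hG, ← sum_mul, ← mul_sum]
    ring
  -- contradiction
  have h3 : ∑ τ : J → Bool, (∑ a, y a * sg (τ a)) ^ 2 * ((Fintype.card J : ℝ) - 2) <
      ∑ τ : J → Bool, (∑ a, y a * sg (τ a)) ^ 2 * ‖∑ j, sg (τ j) • w j‖ ^ 2 := by
    have hex : ∃ τ : J → Bool, (∑ a, y a * sg (τ a)) ^ 2 ≠ 0 := by
      by_contra hall
      push Not at hall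
      have : ∑ τ : J → Bool, (∑ a, y a * sg (τ a)) ^ 2 = 0 := sum_eq_zero fun τ _ => hall τ
      rw [h1] at this
      have := mul_pos hCpos hYpos
      linarith
    obtain ⟨τ, hτ⟩ := hex
    refine sum_lt_sum (fun τ _ => mul_le_mul_of_nonneg_left (hcon τ).le (sq_nonneg _))
      ⟨τ, mem_univ _, ?_⟩
    exact mul_lt_mul_of_pos_left (hcon τ) (lt_of_le_of_ne (sq_nonneg _) (Ne.symm hτ))
  rw [h2, ← sum_mul, h1] at h3
  exact lt_irrefl _ h3

end core

/-- signs with sum `0` or `1` -/
theorem kappa {ι : Type} [DecidableEq ι] (S : Finset ι) : ∃ κ : ι → ℝ,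
    (∀ i, κ i = 1 ∨ κ i = -1) ∧ ∑ i ∈ S, κ i = if Odd S.card then 1 else 0 := by
  induction S using Finset.induction with
  | empty => exact ⟨fun _ => 1, fun _ => Or.inl rfl, by simp⟩
  | insert a S ha ih =>
    obtain ⟨κ, hκ, hs⟩ := ih
    rw [card_insert_of_notMem ha]
    by_cases ho : Odd S.card
    · refine ⟨Function.update κ a (-1), ?_, ?_⟩
      · intro i
        by_cases h : i = a
        · subst h; simp
        · simp [h, hκ i]
      · rw [sum_insert ha, Function.update_self]
        have : ∑ i ∈ S, Function.update κ a (-1) i = ∑ i ∈ S, κ i :=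
          sum_congr rfl fun i hi => by
            have : i ≠ a := fun h => ha (h ▸ hi)
            simp [this]
        rw [this, hs, if_pos ho, if_neg]
        · norm_num
        · rw [Nat.odd_add_one]
          exact fun h => h ho
    · refine ⟨Function.update κ a 1, ?_, ?_⟩
      · intro i
        by_cases h : i = a
        · subst h; simp
        · simp [h, hκ i]
      · rw [sum_insert ha, Function.update_self]
        have : ∑ i ∈ S, Function.update κ a 1 i = ∑ i ∈ S, κ i :=
          sum_congr rfl fun i hi => by
            have : i ≠ a := fun h => ha (h ▸ hi)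
            simp [this]
        rw [this, hs, if_neg ho, if_pos]
        · norm_num
        · rw [Nat.odd_add_one]
          exact ho

/-- unit vectors on one line are equal up to a sign -/
theorem line_sign {E : Type} [NormedAddCommGroup E] [InnerProductSpace ℝ E] {x y : E}
    (hx : ‖x‖ = 1) (hy : ‖y‖ = 1) (h : Submodule.span ℝ {x} = Submodule.span ℝ {y}) :
    ∃ r : ℝ, r * r = 1 ∧ (r = 1 ∨ r = -1) ∧ x = r • y := by
  have hxm : x ∈ Submodule.span ℝ {y} := h ▸ Submodule.mem_span_singleton_self x
  obtain ⟨r, hr⟩ := Submodule.mem_span_singleton.1 hxm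
  have h1 : |r| = 1 := by
    have := congrArg norm hr
    rw [norm_smul, hy, hx, mul_one, Real.norm_eq_abs] at this
    exact this
  have h2 : r = 1 ∨ r = -1 := by
    rcases abs_cases r with ⟨ha, _⟩ | ⟨ha, _⟩
    · left; linarith
    · right; linarith
  refine ⟨r, ?_, h2, hr.symm⟩
  rcases h2 with h2 | h2 <;> rw [h2] <;> norm_num

/-- Let `n` and `d` have opposite parity and let `v_1, …, v_n` be unit vectors in `ℝ^d` on at most
`d + 2` lines through the origin. Then some signing has norm at most `√(d - 1)`. -/
theorem result (d n : ℕ) (hpar : n % 2 ≠ d % 2)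
    (v : Fin n → EuclideanSpace ℝ (Fin d)) (hv : ∀ i, ‖v i‖ = 1)
    (hlines : (Set.range fun i => Submodule.span ℝ {v i}).ncard ≤ d + 2) :
    ∃ η : Fin n → ℝ, (∀ i, η i = 1 ∨ η i = -1) ∧ ‖∑ i, η i • v i‖ ≤ √((d : ℝ) - 1) := by
  classical
  set line : Fin n → Submodule ℝ (EuclideanSpace ℝ (Fin d)) := fun i => Submodule.span ℝ {v i}
    with hline
  set L : Finset (Submodule ℝ (EuclideanSpace ℝ (Fin d))) := univ.image line with hL
  have hLcard : L.card ≤ d + 2 := by
    have : (Set.range line) = (L : Set _) := by
      rw [hL]; simp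
    rw [this, Set.ncard_coe_finset] at hlines
    exact hlines
  have hrep : ∀ l : Submodule ℝ (EuclideanSpace ℝ (Fin d)), ∃ x : EuclideanSpace ℝ (Fin d),
      l ∈ L → ‖x‖ = 1 ∧ Submodule.span ℝ {x} = l := by
    intro l
    by_cases h : l ∈ L
    · rw [hL, mem_image] at h
      obtain ⟨i, _, hi⟩ := h
      exact ⟨v i, fun _ => ⟨hv i, hi⟩⟩
    · exact ⟨0, fun h' => absurd h' h⟩
  choose rep hrep using hrep
  have hmem : ∀ i, line i ∈ L := fun i => by rw [hL]; exact mem_image_of_mem _ (mem_univ i)
  have hs : ∀ i, ∃ r : ℝ, r * r = 1 ∧ (r = 1 ∨ r = -1) ∧ v i = r • rep (line i) := fun i =>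
    line_sign (hv i) (hrep _ (hmem i)).1 (hrep _ (hmem i)).2.symm
  choose s hs1 hs2 hs3 using hs
  set S : Submodule ℝ (EuclideanSpace ℝ (Fin d)) → Finset (Fin n) :=
    fun l => univ.filter fun i => line i = l with hS
  have hk := fun l => kappa (S l)
  choose κ hκ1 hκ2 using hk
  set O : Finset (Submodule ℝ (EuclideanSpace ℝ (Fin d))) := L.filter fun l => Odd (S l).card
    with hO
  -- parity
  have hcard : ∑ l ∈ L, (S l).card = n := by
    have := card_eq_sum_card_fiberwise (s := (univ : Finset (Fin n))) (t := L) (f := line)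
      (fun i _ => hmem i)
    rw [card_univ, Fintype.card_fin] at this
    exact this.symm
  have hOpar : Odd O.card ↔ Odd n := by
    rw [← hcard, odd_sum_iff_odd_card_odd]
  have hOle : O.card ≤ d + 2 := (card_filter_le _ _).trans hLcard
  -- the unit vectors that remain
  set w : O → EuclideanSpace ℝ (Fin d) := fun l => rep l.1 with hw
  have hw1 : ∀ l, ‖w l‖ = 1 := fun l => (hrep l.1 (mem_filter.1 l.2).1).1
  have key : ∃ τ : O → Bool, ‖∑ l, sg (τ l) • w l‖ ^ 2 ≤ (d : ℝ) - 1 := by
    have hcJ : Fintype.card O = O.card := Fintype.card_coe O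
    by_cases hlt : O.card < d + 1
    · obtain ⟨τ, hτ⟩ := avg w hw1
      refine ⟨τ, hτ.trans ?_⟩
      rw [hcJ]
      have h1 : O.card ≠ d := by
        intro h
        rw [h, Nat.odd_iff, Nat.odd_iff] at hOpar
        omega
      have h2 : O.card + 1 ≤ d := by omega
      have h3 : ((O.card : ℕ) : ℝ) + 1 ≤ (d : ℝ) := by exact_mod_cast h2
      linarith
    · have h1 : O.card ≠ d + 2 := by
        intro h
        rw [h, Nat.odd_iff, Nat.odd_iff] at hOpar
        omega
      have h2 : O.card = d + 1 := by omega
      have hdep : ¬ LinearIndependent ℝ w := by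
        intro hli
        have := hli.fintype_card_le_finrank
        rw [hcJ, finrank_euclideanSpace_fin] at this
        omega
      obtain ⟨y, hy, j0, hj0⟩ := Fintype.not_linearIndependent_iff.1 hdep
      obtain ⟨τ, hτ⟩ := core w hw1 y hy j0 hj0
      refine ⟨τ, hτ.trans ?_⟩
      rw [hcJ, h2]
      push_cast
      linarith
  obtain ⟨τ, hτ⟩ := key
  set t : Submodule ℝ (EuclideanSpace ℝ (Fin d)) → ℝ :=
    fun l => if h : l ∈ O then sg (τ ⟨l, h⟩) else 1 with ht
  have ht1 : ∀ l, t l = 1 ∨ t l = -1 := by
    intro l
    rw [ht]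
    by_cases h : l ∈ O
    · simp only [h, dif_pos]; exact sg_or _
    · simp only [h, dif_neg, not_false_eq_true]; left; trivial
  refine ⟨fun i => s i * κ (line i) i * t (line i), ?_, ?_⟩
  · intro i
    rcases hs2 i with h1 | h1 <;> rcases hκ1 (line i) i with h2 | h2 <;>
      rcases ht1 (line i) with h3 | h3 <;> simp [h1, h2, h3]
  · have hsum : ∑ i, (s i * κ (line i) i * t (line i)) • v i = ∑ l, sg (τ l) • w l := by
      have e1 : ∀ i, (s i * κ (line i) i * t (line i)) • v i =
          (κ (line i) i * t (line i)) • rep (line i) := by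
        intro i
        conv_lhs => rw [hs3 i]
        rw [smul_smul]
        congr 1
        calc s i * κ (line i) i * t (line i) * s i =
            (s i * s i) * (κ (line i) i * t (line i)) := by ring
          _ = _ := by rw [hs1, one_mul]
      simp only [e1]
      rw [← sum_fiberwise_of_maps_to (s := (univ : Finset (Fin n))) (t := L) (g := line)
        (fun i _ => hmem i)]
      have e2 : ∀ l ∈ L, ∑ i ∈ univ.filter (fun i => line i = l),
          (κ (line i) i * t (line i)) • rep (line i) =
          if Odd (S l).card then t l • rep l else 0 := by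
        intro l _
        have e3 : ∀ i ∈ univ.filter (fun i => line i = l),
            (κ (line i) i * t (line i)) • rep (line i) = κ l i • (t l • rep l) := by
          intro i hi
          rw [(mem_filter.1 hi).2, smul_smul]
        rw [sum_congr rfl e3, ← sum_smul]
        have e4 : ∑ i ∈ univ.filter (fun i => line i = l), κ l i = _ := hκ2 l
        rw [e4]
        split_ifs
        · rw [one_smul]
        · rw [zero_smul]
      rw [sum_congr rfl e2, ← sum_filter]
      change ∑ l ∈ O, t l • rep l = _
      rw [← sum_coe_sort O]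
      refine sum_congr rfl fun l _ => ?_
      rw [ht]
      simp [hw, l.2]
    rw [hsum]
    exact Real.le_sqrt_of_sq_le hτ

end Pool.Agent.Results.MP_1be6c9_co.FewLines
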